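import Mathlib

set_option autoImplicit false
set_option maxHeartbeats 400000

namespace Pool.Agent.X231.RS

open Module

theorem inj_of_rank {K : Type} [RCLike K] {n l : ℕ} (G : Matrix (Fin n) (Fin l) K)
    (h : G.rank = l) : Function.Injective G.mulVecLin := by
  rw [← LinearMap.ker_eq_bot, ← Submodule.finrank_eq_zero (R := K)]
  have h1 := LinearMap.finrank_range_add_finrank_ker G.mulVecLin
  have h2 : finrank K (LinearMap.range G.mulVecLin) = l := h
  rw [h2, Module.finrank_fin_fun] at h1
  omega

theorem geo {K : Type} [RCLike K] {n l : ℕ} (Om G : Matrix (Fin n) (Fin l) K) (h1 : Om.rank = l)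
    (h2 : G.rank = l) : ∃ W ∈ Matrix.unitaryGroup (Fin n) K, ∃ R : Matrix (Fin l) (Fin l) K,
      IsUnit R ∧ G = W * Om * R := by
  classical
  let e : (Fin n → K) ≃ₗ[K] EuclideanSpace K (Fin n) := (WithLp.linearEquiv 2 K (Fin n → K)).symm
  let fO : (Fin l → K) →ₗ[K] EuclideanSpace K (Fin n) := e.toLinearMap ∘ₗ Om.mulVecLin
  let fG : (Fin l → K) →ₗ[K] EuclideanSpace K (Fin n) := e.toLinearMap ∘ₗ G.mulVecLin
  have iO : Function.Injective fO := e.injective.comp (inj_of_rank Om h1)
  have iG : Function.Injective fG := e.injective.comp (inj_of_rank G h2)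
  have dO : finrank K (LinearMap.range fO) = l := by
    rw [LinearMap.finrank_range_of_inj iO, Module.finrank_fin_fun]
  have dG : finrank K (LinearMap.range fG) = l := by
    rw [LinearMap.finrank_range_of_inj iG, Module.finrank_fin_fun]
  let L0 : LinearMap.range fO ≃ₗᵢ[K] LinearMap.range fG :=
    (stdOrthonormalBasis K (LinearMap.range fO)).equiv (stdOrthonormalBasis K (LinearMap.range fG))
      (finCongr (by rw [dO, dG]))
  let L : LinearMap.range fO →ₗᵢ[K] EuclideanSpace K (Fin n) :=
    (LinearMap.range fG).subtypeₗᵢ.comp L0.toLinearIsometry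
  let Le : EuclideanSpace K (Fin n) →ₗᵢ[K] EuclideanSpace K (Fin n) := L.extend
  let T : (Fin n → K) →ₗ[K] (Fin n → K) :=
    e.symm.toLinearMap ∘ₗ Le.toLinearMap ∘ₗ e.toLinearMap
  let ρ : (Fin l → K) ≃ₗ[K] (Fin l → K) := (LinearEquiv.ofInjective fG iG).trans
    (L0.symm.toLinearEquiv.trans (LinearEquiv.ofInjective fO iO).symm)
  have key : ∀ x, Le (fO (ρ x)) = fG x := by
    intro x
    have h3 : LinearEquiv.ofInjective fO iO (ρ x) = L0.symm (LinearEquiv.ofInjective fG iG x) := by
      simp [ρ]
    have h4 : (fO (ρ x)) = ((LinearEquiv.ofInjective fO iO (ρ x) : LinearMap.range fO) :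
        EuclideanSpace K (Fin n)) := by simp
    rw [h4]
    rw [show Le = L.extend from rfl, LinearIsometry.extend_apply, h3]
    simp [L]
  refine ⟨LinearMap.toMatrix' T, ?_, LinearMap.toMatrix' ρ.toLinearMap, ?_, ?_⟩
  · rw [Matrix.mem_unitaryGroup_iff']
    ext i j
    rw [Matrix.mul_apply, Matrix.one_apply]
    have h5 : ∀ j : Fin n, (WithLp.toLp 2 fun k => LinearMap.toMatrix' T k j) =
        Le (EuclideanSpace.single j (1 : K)) := by
      intro j
      ext k
      simp only [LinearMap.toMatrix'_apply]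
      rfl
    have h6 : inner K (Le (EuclideanSpace.single i (1 : K))) (Le (EuclideanSpace.single j (1 : K))) =
        if i = j then 1 else 0 := by
      rw [LinearIsometry.inner_map_map]
      simp [EuclideanSpace.inner_single_left]
    rw [← h6, ← h5, ← h5, PiLp.inner_apply]
    refine Finset.sum_congr rfl fun k _ => ?_
    rw [RCLike.inner_apply, Matrix.star_apply]
    exact mul_comm _ _
  · refine ⟨⟨LinearMap.toMatrix' ρ.toLinearMap, LinearMap.toMatrix' ρ.symm.toLinearMap, ?_, ?_⟩, rfl⟩
    · rw [← LinearMap.toMatrix'_comp]; simp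
    · rw [← LinearMap.toMatrix'_comp]; simp
  · apply Matrix.toLin'.injective
    apply LinearMap.ext
    intro x
    rw [Matrix.toLin'_apply, Matrix.toLin'_apply, ← Matrix.mulVec_mulVec, ← Matrix.mulVec_mulVec,
      LinearMap.toMatrix'_mulVec, LinearMap.toMatrix'_mulVec]
    have h7 := congrArg e.symm (key x)
    have h8 : e.symm (fG x) = G.mulVec x := by simp [fG]
    rw [h8] at h7
    rw [← h7]
    simp [T, fO]

end Pool.Agent.X231.RS
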